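import Mathlib.Data.Nat.Fib.Basic
import Mathlib.Tactic

/-!
# The enclosure conditions for the net (pure number theory)

`R = F_(2D+2)`, `c = F_(2D)`, `L = {(x, y) : R | x - c y}`, `S = L + {0, 1, 2} (1, 1)`.
The gaps between consecutive points of `S` in a row (or column) are `R - 2 c + 2` (type `0`, then
type `2`), `c - 1` (type `2`, then `1`) and `c - 1` (type `1`, then `0`).  For two consecutive
points `(x', y)`, `(x, y)` of a row, each of the columns `x' - 1`, `x' + 1` and each of the rows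
`y - 1`, `y + 1` has a point of `S` beyond the `2 x 2` block around `(x', y)` whose sum of
coordinates is `< x + y`.
-/

set_option autoImplicit false

namespace Pool.Agent.Helper7.DG3

/-- type `i` -/
def Ty (R c i x y : ℤ) : Prop := R ∣ (x - i) - c * (y - i)

/-- the set `L + {0, 1, 2} (1, 1)` -/
def Sg (R c x y : ℤ) : Prop := ∃ i : ℤ, 0 ≤ i ∧ i ≤ 2 ∧ R ∣ (x - i) - c * (y - i)

/-- the constants -/
structure RC (R c : ℤ) : Prop where
  hsq : R ∣ c * c - 1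
  h1 : 2 * c + 5 ≤ R
  h2 : R + 3 ≤ 3 * c

theorem sg_iff {R c x y : ℤ} : Sg R c x y ↔ Ty R c 0 x y ∨ Ty R c 1 x y ∨ Ty R c 2 x y := by
  constructor
  · rintro ⟨i, h0, h2, h⟩
    have h3 : i = 0 ∨ i = 1 ∨ i = 2 := by omega
    rcases h3 with rfl | rfl | rfl
    · exact Or.inl h
    · exact Or.inr (Or.inl h)
    · exact Or.inr (Or.inr h)
  · rintro (h | h | h)
    · exact ⟨0, by norm_num, by norm_num, h⟩
    · exact ⟨1, by norm_num, by norm_num, h⟩
    · exact ⟨2, by norm_num, by norm_num, h⟩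

theorem Ty.swap {R c i x y : ℤ} (hc : R ∣ c * c - 1) (h : Ty R c i x y) : Ty R c i y x := by
  obtain ⟨k, hk⟩ := h
  obtain ⟨m, hm⟩ := hc
  refine ⟨-(c * k) - m * (y - i), ?_⟩
  linear_combination (-c) * hk - (y - i) * hm

theorem ty_zero {R z : ℤ} (h : R ∣ z) (h1 : -R < z) (h2 : z < R) : z = 0 :=
  Int.eq_zero_of_abs_lt_dvd h (abs_lt.2 ⟨h1, h2⟩)

/-- two points of one row -/
theorem Ty.diff {R c i j x y x' : ℤ} (h : Ty R c i x' y) (h' : Ty R c j x y) :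
    R ∣ (x - x') - (i - j) * (c - 1) := by
  obtain ⟨k, hk⟩ := h
  obtain ⟨m, hm⟩ := h'
  exact ⟨m - k, by linear_combination hm - hk⟩

theorem Ty.move {R c i j x y x' y' : ℤ} (h : Ty R c i x y)
    (hd : ∃ q : ℤ, (x' - x) - c * (y' - y) - (j - i) * (1 - c) = R * q) : Ty R c j x' y' := by
  obtain ⟨k, hk⟩ := h
  obtain ⟨q, hq⟩ := hd
  exact ⟨k + q, by linear_combination hk + hq⟩

/-- the gaps in a row -/
theorem gap_row {R c : ℤ} (h : RC R c) {x' x y : ℤ} (h1 : x' < x) (h2 : Sg R c x' y)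
    (h3 : Sg R c x y) (h4 : ∀ z, x' < z → z < x → ¬ Sg R c z y) :
    (Ty R c 0 x' y ∧ Ty R c 2 x y ∧ x = x' + (R - 2 * c + 2)) ∨
      (Ty R c 1 x' y ∧ Ty R c 0 x y ∧ x = x' + (c - 1)) ∨
      (Ty R c 2 x' y ∧ Ty R c 1 x y ∧ x = x' + (c - 1)) := by
  have e1 := h.h1
  have e2 := h.h2
  rw [sg_iff] at h2
  rcases h2 with h2 | h2 | h2
  · -- type 0
    have hn : Ty R c 2 (x' + (R - 2 * c + 2)) y := h2.move ⟨1, by ring⟩
    have hle : x ≤ x' + (R - 2 * c + 2) := by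
      by_contra hh
      exact h4 _ (by omega) (by omega) (sg_iff.2 (Or.inr (Or.inr hn)))
    rcases sg_iff.1 h3 with h5 | h5 | h5
    · have h6 := ty_zero (h2.diff h5) (by omega) (by omega)
      omega
    · have h6 := ty_zero ((h2.diff h5).sub (dvd_refl R)) (by omega) (by omega)
      omega
    · have h6 := ty_zero ((h2.diff h5).sub (dvd_refl R)) (by omega) (by omega)
      exact Or.inl ⟨h2, h5, by omega⟩
  · -- type 1
    have hn : Ty R c 0 (x' + (c - 1)) y := h2.move ⟨0, by ring⟩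
    have hle : x ≤ x' + (c - 1) := by
      by_contra hh
      exact h4 _ (by omega) (by omega) (sg_iff.2 (Or.inl hn))
    rcases sg_iff.1 h3 with h5 | h5 | h5
    · have h6 := ty_zero (h2.diff h5) (by omega) (by omega)
      exact Or.inr (Or.inl ⟨h2, h5, by omega⟩)
    · have h6 := ty_zero (h2.diff h5) (by omega) (by omega)
      omega
    · have h6 := ty_zero (h2.diff h5) (by omega) (by omega)
      omega
  · -- type 2
    have hn : Ty R c 1 (x' + (c - 1)) y := h2.move ⟨0, by ring⟩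
    have hle : x ≤ x' + (c - 1) := by
      by_contra hh
      exact h4 _ (by omega) (by omega) (sg_iff.2 (Or.inr (Or.inl hn)))
    rcases sg_iff.1 h3 with h5 | h5 | h5
    · have h6 := ty_zero (h2.diff h5) (by omega) (by omega)
      omega
    · have h6 := ty_zero (h2.diff h5) (by omega) (by omega)
      exact Or.inr (Or.inr ⟨h2, h5, by omega⟩)
    · have h6 := ty_zero (h2.diff h5) (by omega) (by omega)
      omega

/-- two different points of one row have distance at least `3` -/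
theorem gap_three {R c : ℤ} (h : RC R c) {x' x y : ℤ} (h1 : x' < x) (h2 : Sg R c x' y)
    (h3 : Sg R c x y) : x' + 3 ≤ x := by
  have e1 := h.h1
  have e2 := h.h2
  by_contra hh
  rw [sg_iff] at h2 h3
  rcases h2 with h2 | h2 | h2 <;> rcases h3 with h3 | h3 | h3
  · have h6 := ty_zero (h2.diff h3) (by omega) (by omega)
    omega
  · have h6 := ty_zero (h2.diff h3) (by omega) (by omega)
    omega
  · have h6 := ty_zero ((h2.diff h3).sub (dvd_refl R)) (by omega) (by omega)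
    omega
  · have h6 := ty_zero (h2.diff h3) (by omega) (by omega)
    omega
  · have h6 := ty_zero (h2.diff h3) (by omega) (by omega)
    omega
  · have h6 := ty_zero (h2.diff h3) (by omega) (by omega)
    omega
  · have h6 := ty_zero (h2.diff h3) (by omega) (by omega)
    omega
  · have h6 := ty_zero (h2.diff h3) (by omega) (by omega)
    omega
  · have h6 := ty_zero (h2.diff h3) (by omega) (by omega)
    omega

theorem Sg.swap {R c : ℤ} (h : RC R c) {x y : ℤ} (hs : Sg R c x y) : Sg R c y x := by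
  obtain ⟨i, h0, h1, h2⟩ := hs
  exact ⟨i, h0, h1, Ty.swap h.hsq h2⟩

theorem sg_swap {R c : ℤ} (h : RC R c) (x y : ℤ) : Sg R c x y ↔ Sg R c y x :=
  ⟨Sg.swap h, Sg.swap h⟩

/-- the same for a column -/
theorem gap_three' {R c : ℤ} (h : RC R c) {x y' y : ℤ} (h1 : y' < y) (h2 : Sg R c x y')
    (h3 : Sg R c x y) : y' + 3 ≤ y := gap_three h h1 (h2.swap h) (h3.swap h)

/-- the enclosure conditions in columns, for two consecutive points of one row -/
theorem enc_col {R c : ℤ} (h : RC R c) {x' x y : ℤ} (h1 : x' < x) (h2 : Sg R c x' y)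
    (h3 : Sg R c x y) (h4 : ∀ z, x' < z → z < x → ¬ Sg R c z y) :
    (∃ v, y < v ∧ v < y + (x - x') + 1 ∧ Sg R c (x' - 1) v) ∧
      (∃ v, y < v ∧ v < y + (x - x') - 1 ∧ Sg R c (x' + 1) v) := by
  have e1 := h.h1
  have e2 := h.h2
  rcases gap_row h h1 h2 h3 h4 with ⟨h5, h6, rfl⟩ | ⟨h5, h6, rfl⟩ | ⟨h5, h6, rfl⟩
  · have h7 := (h5.swap h.hsq)
    refine ⟨⟨y + (R - 2 * c + 1), by omega, by omega, ?_⟩, ⟨y + 1, by omega, by omega, ?_⟩⟩
    · refine (sg_iff.2 (Or.inr (Or.inl ?_))).swap h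
      exact h7.move ⟨1, by ring⟩
    · refine (sg_iff.2 (Or.inr (Or.inl ?_))).swap h
      exact h7.move ⟨0, by ring⟩
  · have h7 := (h5.swap h.hsq)
    refine ⟨⟨y + (R - 2 * c + 1), by omega, by omega, ?_⟩, ⟨y + 1, by omega, by omega, ?_⟩⟩
    · refine (sg_iff.2 (Or.inr (Or.inr ?_))).swap h
      exact h7.move ⟨1, by ring⟩
    · refine (sg_iff.2 (Or.inr (Or.inr ?_))).swap h
      exact h7.move ⟨0, by ring⟩
  · have h7 := (h5.swap h.hsq)
    refine ⟨⟨y + (c - 2), by omega, by omega, ?_⟩, ⟨y + (3 * c - R - 2), by omega, by omega, ?_⟩⟩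
    · refine (sg_iff.2 (Or.inl ?_)).swap h
      exact h7.move ⟨0, by ring⟩
    · refine (sg_iff.2 (Or.inl ?_)).swap h
      exact h7.move ⟨-1, by ring⟩

/-- the enclosure conditions in rows, for two consecutive points of one row -/
theorem enc_row {R c : ℤ} (h : RC R c) {x' x y : ℤ} (h1 : x' < x) (h2 : Sg R c x' y)
    (h3 : Sg R c x y) (h4 : ∀ z, x' < z → z < x → ¬ Sg R c z y) :
    (∃ u, x' < u ∧ u < x + 1 ∧ Sg R c u (y - 1)) ∧
      (∃ u, x' < u ∧ u < x - 1 ∧ Sg R c u (y + 1)) := by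
  have e1 := h.h1
  have e2 := h.h2
  rcases gap_row h h1 h2 h3 h4 with ⟨h5, h6, rfl⟩ | ⟨h5, h6, rfl⟩ | ⟨h5, h6, rfl⟩
  · refine ⟨⟨x' + (R - 2 * c + 1), by omega, by omega, ?_⟩, ⟨x' + 1, by omega, by omega, ?_⟩⟩
    · exact sg_iff.2 (Or.inr (Or.inl (h5.move ⟨1, by ring⟩)))
    · exact sg_iff.2 (Or.inr (Or.inl (h5.move ⟨0, by ring⟩)))
  · refine ⟨⟨x' + (R - 2 * c + 1), by omega, by omega, ?_⟩, ⟨x' + 1, by omega, by omega, ?_⟩⟩
    · exact sg_iff.2 (Or.inr (Or.inr (h5.move ⟨1, by ring⟩)))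
    · exact sg_iff.2 (Or.inr (Or.inr (h5.move ⟨0, by ring⟩)))
  · refine ⟨⟨x' + (c - 2), by omega, by omega, ?_⟩,
      ⟨x' + (3 * c - R - 2), by omega, by omega, ?_⟩⟩
    · exact sg_iff.2 (Or.inl (h5.move ⟨0, by ring⟩))
    · exact sg_iff.2 (Or.inl (h5.move ⟨-1, by ring⟩))

/-- the enclosure conditions, for two consecutive points of one row -/
theorem rig_gen {R c : ℤ} (h : RC R c) {x' x y : ℤ} (h1 : x' < x) (h2 : Sg R c x' y)
    (h3 : Sg R c x y) (h4 : ∀ z, x' < z → z < x → ¬ Sg R c z y) :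
    x' + 3 ≤ x ∧ ¬ Sg R c (x' - 1) y ∧ ¬ Sg R c (x' + 1) y ∧ ¬ Sg R c x' (y - 1) ∧
      ¬ Sg R c x' (y + 1) ∧
      (∃ v, y < v ∧ v < y + (x - x') + 1 ∧ Sg R c (x' - 1) v) ∧
      (∃ v, y < v ∧ v < y + (x - x') - 1 ∧ Sg R c (x' + 1) v) ∧
      (∃ u, x' < u ∧ u < x + 1 ∧ Sg R c u (y - 1)) ∧
      (∃ u, x' < u ∧ u < x - 1 ∧ Sg R c u (y + 1)) := by
  refine ⟨gap_three h h1 h2 h3, fun hh => ?_, fun hh => ?_, fun hh => ?_, fun hh => ?_,
    (enc_col h h1 h2 h3 h4).1, (enc_col h h1 h2 h3 h4).2, (enc_row h h1 h2 h3 h4).1,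
    (enc_row h h1 h2 h3 h4).2⟩
  · have := gap_three h (by omega) hh h2
    omega
  · have := gap_three h (by omega) h2 hh
    omega
  · have := gap_three' h (by omega) hh h2
    omega
  · have := gap_three' h (by omega) h2 hh
    omega

/-- the next point of a row -/
theorem sg_next {R c : ℤ} (hR : 0 < R) (x y : ℤ) : ∃ u, x < u ∧ u ≤ x + R ∧ Sg R c u y := by
  refine ⟨x + R - (x - c * y) % R, ?_, ?_, sg_iff.2 (Or.inl ?_)⟩
  · have := Int.emod_lt_of_pos (x - c * y) hR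
    omega
  · have := Int.emod_nonneg (x - c * y) hR.ne'
    omega
  · refine ⟨1 + (x - c * y) / R, ?_⟩
    have := Int.emod_add_mul_ediv (x - c * y) R
    linear_combination -this

/-- the previous point of a row -/
theorem sg_prev {R c : ℤ} (hR : 0 < R) (x y : ℤ) : ∃ u, x - R ≤ u ∧ u < x ∧ Sg R c u y := by
  obtain ⟨u, h1, h2, h3⟩ := sg_next (c := c) hR (x - R - 1) y
  exact ⟨u, by omega, by omega, h3⟩

/-- the points of one diagonal -/
theorem Ty.diag {R c i x y : ℤ} (h : Ty R c i x y) : Ty R c (i + 1) (x + 1) (y + 1) := by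
  unfold Ty at h ⊢
  have e : x + 1 - (i + 1) - c * (y + 1 - (i + 1)) = x - i - c * (y - i) := by ring
  rwa [e]

/-- the lattice point is of type `0` only -/
theorem ty_unique {R c : ℤ} (h : RC R c) {i j x y : ℤ} (hi : 0 ≤ i) (hi2 : i ≤ 2) (hj : 0 ≤ j)
    (hj2 : j ≤ 2) (h1 : Ty R c i x y) (h2 : Ty R c j x y) : i = j := by
  have e1 := h.h1
  have e2 := h.h2
  have h3 := h1.diff h2
  have hi' : i = 0 ∨ i = 1 ∨ i = 2 := by omega
  have hj' : j = 0 ∨ j = 1 ∨ j = 2 := by omega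
  rcases hi' with rfl | rfl | rfl <;> rcases hj' with rfl | rfl | rfl <;>
    first
      | rfl
      | (have h6 := ty_zero h3 (by omega) (by omega); omega)

/-! ### the Fibonacci constants -/

theorem fib_RC {D : ℕ} (hD : 3 ≤ D) :
    RC (Nat.fib (2 * D + 2) : ℤ) (Nat.fib (2 * D) : ℤ) := by
  obtain ⟨m, rfl⟩ : ∃ m, D = m + 3 := ⟨D - 3, by omega⟩
  have f : ∀ n, (Nat.fib (n + 2) : ℤ) = Nat.fib n + Nat.fib (n + 1) := fun n => by
    rw [Nat.fib_add_two]; push_cast; ring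
  have e : 2 * (m + 3) = 2 * m + 6 := by ring
  rw [e]
  have a2 : (Nat.fib (2 * m + 2) : ℤ) = Nat.fib (2 * m) + Nat.fib (2 * m + 1) := f (2 * m)
  have a3 : (Nat.fib (2 * m + 3) : ℤ) = Nat.fib (2 * m + 1) + Nat.fib (2 * m + 2) :=
    f (2 * m + 1)
  have a4 : (Nat.fib (2 * m + 4) : ℤ) = Nat.fib (2 * m + 2) + Nat.fib (2 * m + 3) :=
    f (2 * m + 2)
  have a5 : (Nat.fib (2 * m + 5) : ℤ) = Nat.fib (2 * m + 3) + Nat.fib (2 * m + 4) :=
    f (2 * m + 3)
  have a6 : (Nat.fib (2 * m + 6) : ℤ) = Nat.fib (2 * m + 4) + Nat.fib (2 * m + 5) :=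
    f (2 * m + 4)
  have a7 : (Nat.fib (2 * m + 7) : ℤ) = Nat.fib (2 * m + 5) + Nat.fib (2 * m + 6) :=
    f (2 * m + 5)
  have a8 : (Nat.fib (2 * m + 6 + 2) : ℤ) = Nat.fib (2 * m + 6) + Nat.fib (2 * m + 7) :=
    f (2 * m + 6)
  have p0 : (1 : ℤ) ≤ Nat.fib (2 * m + 1) := by
    exact_mod_cast Nat.fib_pos.2 (by omega)
  have p1 : (0 : ℤ) ≤ Nat.fib (2 * m) := by positivity
  have cas : ∀ k : ℕ, (Nat.fib (2 * k + 1) : ℤ) ^ 2 - Nat.fib (2 * k) * Nat.fib (2 * k + 1) -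
      (Nat.fib (2 * k) : ℤ) ^ 2 = 1 := by
    intro k
    induction k with
    | zero => simp
    | succ k ih =>
      have b2 := f (2 * k)
      have b3 := f (2 * k + 1)
      have e2 : 2 * (k + 1) = 2 * k + 2 := by ring
      rw [e2, b3, b2]
      linear_combination ih
  refine ⟨?_, ?_, ?_⟩
  · have hc := cas (m + 3)
    rw [e] at hc
    refine ⟨2 * (Nat.fib (2 * m + 6) : ℤ) - Nat.fib (2 * m + 7), ?_⟩
    rw [a8]
    linear_combination hc
  · omega
  · omega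

/-- `S` for the Fibonacci lattice -/
def S (D : ℕ) (x y : ℤ) : Prop := Sg (Nat.fib (2 * D + 2) : ℤ) (Nat.fib (2 * D) : ℤ) x y

theorem rig {D : ℕ} (hD : 3 ≤ D) {x' x y : ℤ} (h1 : x' < x) (h2 : S D x' y) (h3 : S D x y)
    (h4 : ∀ z, x' < z → z < x → ¬ S D z y) :
    x' + 3 ≤ x ∧ ¬ S D (x' - 1) y ∧ ¬ S D (x' + 1) y ∧ ¬ S D x' (y - 1) ∧ ¬ S D x' (y + 1) ∧
      (∃ v, y < v ∧ v < y + (x - x') + 1 ∧ S D (x' - 1) v) ∧
      (∃ v, y < v ∧ v < y + (x - x') - 1 ∧ S D (x' + 1) v) ∧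
      (∃ u, x' < u ∧ u < x + 1 ∧ S D u (y - 1)) ∧
      (∃ u, x' < u ∧ u < x - 1 ∧ S D u (y + 1)) := rig_gen (fib_RC hD) h1 h2 h3 h4

theorem S_swap {D : ℕ} (hD : 3 ≤ D) {x y : ℤ} : S D x y ↔ S D y x := sg_swap (fib_RC hD) x y

theorem S_gap {D : ℕ} (hD : 3 ≤ D) {x' x y : ℤ} (h1 : x' < x) (h2 : S D x' y) (h3 : S D x y) :
    x' + 3 ≤ x := gap_three (fib_RC hD) h1 h2 h3

theorem S_next (D : ℕ) (x y : ℤ) : ∃ u, x < u ∧ u ≤ x + (Nat.fib (2 * D + 2) : ℤ) ∧ S D u y :=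
  sg_next (by exact_mod_cast Nat.fib_pos.2 (by omega)) x y

theorem S_prev (D : ℕ) (x y : ℤ) : ∃ u, x - (Nat.fib (2 * D + 2) : ℤ) ≤ u ∧ u < x ∧ S D u y :=
  sg_prev (by exact_mod_cast Nat.fib_pos.2 (by omega)) x y

end Pool.Agent.Helper7.DG3
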