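import Pool.Agent.Helper59.DG3.PairDefs

/-!
# Threads: different vertices have different places
-/

set_option autoImplicit false

namespace Pool.Agent.Helper29.DG3

open Pool.Agent.Helper59.DG3

variable {R : ℤ} {L : ℤ × ℤ → Prop} {x y : ℝ} {k k' : ℕ} {p p' q q' : ℤ × ℤ}

private theorem cell_eq {m n : ℤ} {a b : ℝ} (ha : 0 ≤ a) (ha' : a < 2) (hb : 0 ≤ b) (hb' : b < 2)
    (h : 2 * (m : ℝ) + 4 + a = 2 * (n : ℝ) + 4 + b) : m = n ∧ a = b := by
  have h1 : (m : ℝ) < (n : ℝ) + 1 := by linarith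
  have h2 : (n : ℝ) < (m : ℝ) + 1 := by linarith
  have h3 : m < n + 1 := by exact_mod_cast h1
  have h4 : n < m + 1 := by exact_mod_cast h2
  have h5 : m = n := by omega
  refine ⟨h5, ?_⟩
  rw [h5] at h
  linarith

private theorem sq_mem (k : ℕ) : 0 < (xi k) ^ 2 / 2 ∧ (xi k) ^ 2 / 2 < 2 := by
  have h1 := xi_ge k
  have h2 := xi_lt k
  constructor <;> nlinarith

private theorem sq_mem' (k : ℕ) : 0 < 2 - (2 - xi k) ^ 2 / 2 ∧ 2 - (2 - xi k) ^ 2 / 2 < 2 := by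
  have h1 := xi_ge k
  have h2 := xi_lt k
  constructor <;> nlinarith

private theorem strip_eq (_ : 0 < R) {a b c : ℤ} (h : R ∣ a - b) (h1 : a < c) (h2 : c < a + R)
    (h3 : b < c) (h4 : c < b + R) : a = b := by
  have := Int.eq_zero_of_abs_lt_dvd h (abs_lt.2 ⟨by omega, by omega⟩)
  omega

theorem v0_v0 (_ : Lat R L) (h1 : V0 L k p x y) (h2 : V0 L k' p' x y) :
    k = k' ∧ p = p' := by
  obtain ⟨_, hx, hy⟩ := h1
  obtain ⟨_, hx', hy'⟩ := h2
  have g1 := xi_ge k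
  have g2 := xi_lt k
  have g3 := xi_ge k'
  have g4 := xi_lt k'
  have s1 := sq_mem k
  have s2 := sq_mem k'
  obtain ⟨a1, a2⟩ := cell_eq (by linarith) g2 (by linarith) g4 (hx.symm.trans hx')
  obtain ⟨b1, _⟩ := cell_eq s1.1.le s1.2 s2.1.le s2.2 (hy.symm.trans hy')
  exact ⟨xi_inj a2, Prod.ext a1 b1⟩

theorem v0_ve (_ : Lat R L) (h1 : V0 L k p x y) (h2 : Ve L k' p' x y) :
    False := by
  obtain ⟨_, hx, hy⟩ := h1
  obtain ⟨_, hx', hy'⟩ := h2
  have g1 := xi_ge k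
  have g2 := xi_lt k
  have g3 := xi_ge k'
  have g4 := xi_lt k'
  have s1 := sq_mem k
  have s2 := sq_mem' k'
  obtain ⟨_, a2⟩ := cell_eq (by linarith) g2 (by linarith) g4 (hx.symm.trans hx')
  obtain ⟨_, b2⟩ := cell_eq (m := p.2) (n := p'.2) s1.1.le s1.2 s2.1.le s2.2
    (by rw [← hy, hy']; ring)
  rw [← a2] at b2
  nlinarith

theorem v0_vm (_ : Lat R L) (h1 : V0 L k p x y) (h2 : Vm R L k' p' q' x y) :
    False := by
  obtain ⟨_, hx, hy⟩ := h1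
  obtain ⟨_, _, _, _, _, _, hx', hy'⟩ := h2
  have g1 := xi_ge k
  have g2 := xi_lt k
  have g3 := xi_ge k'
  have g4 := xi_lt k'
  have s1 := sq_mem k
  obtain ⟨_, a2⟩ := cell_eq (by linarith) g2 (by linarith) g4 (hx.symm.trans hx')
  obtain ⟨_, b2⟩ := cell_eq s1.1.le s1.2 (by linarith) g4 (hy.symm.trans hy')
  rw [← a2] at b2
  nlinarith

theorem v0_vf (_ : Lat R L) (h1 : V0 L k p x y) (h2 : Vf p' x y) :
    False := by
  obtain ⟨_, hx, _⟩ := h1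
  obtain ⟨hx', _⟩ := h2
  have g1 := xi_ge k
  have g2 := xi_lt k
  obtain ⟨_, a2⟩ := cell_eq (m := p.1) (n := p'.1) (a := xi k) (b := 0) (by linarith) g2
    le_rfl (by norm_num) (by rw [← hx, hx']; ring)
  linarith

theorem ve_ve (_ : Lat R L) (h1 : Ve L k p x y) (h2 : Ve L k' p' x y) :
    k = k' ∧ p = p' := by
  obtain ⟨_, hx, hy⟩ := h1
  obtain ⟨_, hx', hy'⟩ := h2
  have g1 := xi_ge k
  have g2 := xi_lt k
  have g3 := xi_ge k'
  have g4 := xi_lt k'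
  have s1 := sq_mem' k
  have s2 := sq_mem' k'
  obtain ⟨a1, a2⟩ := cell_eq (by linarith) g2 (by linarith) g4 (hx.symm.trans hx')
  obtain ⟨b1, _⟩ := cell_eq (m := p.2) (n := p'.2) s1.1.le s1.2 s2.1.le s2.2
    (by linear_combination hy' - hy)
  exact ⟨xi_inj a2, Prod.ext a1 b1⟩

theorem ve_vm (_ : Lat R L) (h1 : Ve L k p x y) (h2 : Vm R L k' p' q' x y) :
    False := by
  obtain ⟨_, hx, hy⟩ := h1
  obtain ⟨_, _, _, _, _, _, hx', hy'⟩ := h2
  have g1 := xi_ge k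
  have g2 := xi_lt k
  have g3 := xi_ge k'
  have g4 := xi_lt k'
  have s1 := sq_mem' k
  obtain ⟨_, a2⟩ := cell_eq (by linarith) g2 (by linarith) g4 (hx.symm.trans hx')
  obtain ⟨_, b2⟩ := cell_eq (m := p.2) (n := q'.2) s1.1.le s1.2 (by linarith) g4
    (by linear_combination hy' - hy)
  rw [← a2] at b2
  nlinarith

theorem ve_vf (_ : Lat R L) (h1 : Ve L k p x y) (h2 : Vf p' x y) :
    False := by
  obtain ⟨_, hx, _⟩ := h1
  obtain ⟨hx', _⟩ := h2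
  have g1 := xi_ge k
  have g2 := xi_lt k
  obtain ⟨_, a2⟩ := cell_eq (m := p.1) (n := p'.1) (a := xi k) (b := 0) (by linarith) g2
    le_rfl (by norm_num) (by rw [← hx, hx']; ring)
  linarith

theorem vm_vm (h : Lat R L) (h1 : Vm R L k p q x y) (h2 : Vm R L k' p' q' x y) :
    k = k' ∧ p = p' ∧ q = q' := by
  obtain ⟨hp, hq, c1, c2, c3, c4, hx, hy⟩ := h1
  obtain ⟨hp', hq', d1, d2, d3, d4, hx', hy'⟩ := h2
  have g1 := xi_ge k
  have g2 := xi_lt k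
  have g3 := xi_ge k'
  have g4 := xi_lt k'
  obtain ⟨a1, a2⟩ := cell_eq (by linarith) g2 (by linarith) g4 (hx.symm.trans hx')
  obtain ⟨b1, _⟩ := cell_eq (by linarith) g2 (by linarith) g4 (hy.symm.trans hy')
  have e1 : p.2 = p'.2 := strip_eq h.hR (h.col p p' hp hp' a1) c1 c2 (b1 ▸ d1) (b1 ▸ d2)
  have e2 : q.1 = q'.1 := strip_eq h.hR (h.row q q' hq hq' b1) c3 c4 (a1 ▸ d3) (a1 ▸ d4)
  exact ⟨xi_inj a2, Prod.ext a1 e1, Prod.ext e2 b1⟩

theorem vm_vf (_ : Lat R L) (h1 : Vm R L k p q x y) (h2 : Vf p' x y) :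
    False := by
  obtain ⟨_, _, _, _, _, _, hx, _⟩ := h1
  obtain ⟨hx', _⟩ := h2
  have g1 := xi_ge k
  have g2 := xi_lt k
  obtain ⟨_, a2⟩ := cell_eq (m := p.1) (n := p'.1) (a := xi k) (b := 0) (by linarith) g2
    le_rfl (by norm_num) (by rw [← hx, hx']; ring)
  linarith

theorem vf_vf (_ : Lat R L) (h1 : Vf p x y) (h2 : Vf p' x y) :
    p = p' := by
  obtain ⟨hx, hy⟩ := h1
  obtain ⟨hx', hy'⟩ := h2
  obtain ⟨a1, _⟩ := cell_eq (m := p.1) (n := p'.1) (a := 0) (b := 0) le_rfl (by norm_num)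
    le_rfl (by norm_num) (by linear_combination hx' - hx)
  obtain ⟨b1, _⟩ := cell_eq (m := p.2) (n := p'.2) (a := 0) (b := 0) le_rfl (by norm_num)
    le_rfl (by norm_num) (by linear_combination hy' - hy)
  exact Prod.ext a1 b1

end Pool.Agent.Helper29.DG3
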